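import Pool.Agent.Y852.RL.Lop

/-!
# The modular differential equation of order two and the discriminant form
-/

set_option autoImplicit false

open Complex Filter Topology
open UpperHalfPlane hiding I
open scoped Manifold

namespace Pool.Agent.Y852.RL

open Pool.Agent.Y813.RL

/-! ### lattice facts -/

section lattice

variable {G : Matrix (Fin 20) (Fin 20) ℤ}

theorem inv_mulVec (hdet : 0 < G.det) (v : Fin 20 → ℤ) :
    (G.map (Int.cast : ℤ → ℝ))⁻¹.mulVec (fun j => ((G.mulVec v j : ℤ) : ℝ)) = fun j => (v j : ℝ) := by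
  have h1 : (fun j => ((G.mulVec v j : ℤ) : ℝ)) =
      (G.map (Int.cast : ℤ → ℝ)).mulVec (fun j => (v j : ℝ)) := by
    funext j
    simp [Matrix.mulVec, dotProduct]
  have h2 : IsUnit (G.map (Int.cast : ℤ → ℝ)).det := by
    have : (G.map (Int.cast : ℤ → ℝ)).det = ((G.det : ℤ) : ℝ) := by
      have := (Int.castRingHom ℝ).map_det G
      simpa using this.symm
    rw [this, isUnit_iff_ne_zero]
    exact_mod_cast hdet.ne'
  rw [h1, Matrix.mulVec_mulVec, Matrix.nonsing_inv_mul _ h2, Matrix.one_mulVec]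

theorem bd_add_mulVec (hdet : 0 < G.det) (μ ρ v : Fin 20 → ℤ) :
    bd G μ (ρ + G.mulVec v) = bd G μ ρ + ((∑ i, μ i * v i : ℤ) : ℝ) := by
  unfold bd
  have h1 : (fun j => (((ρ + G.mulVec v) j : ℤ) : ℝ)) =
      (fun j => (ρ j : ℝ)) + fun j => ((G.mulVec v j : ℤ) : ℝ) := by
    funext j; simp
  rw [h1, Matrix.mulVec_add, inv_mulVec hdet]
  push_cast
  rw [← Finset.sum_add_distrib]
  exact Finset.sum_congr rfl fun i _ => by simp; ring

theorem bd_zero_left (ν : Fin 20 → ℤ) : bd G 0 ν = 0 := by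
  simp [bd]

theorem ee_bd_add (hdet : 0 < G.det) (μ ρ v : Fin 20 → ℤ) :
    ee (-(bd G μ (ρ + G.mulVec v) : ℂ)) = ee (-(bd G μ ρ : ℂ)) := by
  rw [bd_add_mulVec hdet]
  have : (-((bd G μ ρ + ((∑ i, μ i * v i : ℤ) : ℝ) : ℝ) : ℂ)) =
      -(bd G μ ρ : ℂ) + ((-(∑ i, μ i * v i) : ℤ) : ℂ) := by push_cast; ring
  rw [this, ee_add_int]

/-- the norm of a vector of the lattice itself is even -/
theorem bd_even (hdet : 0 < G.det) (hsymm : G.IsSymm) (heven : ∀ i, Even (G i i))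
    (v : Fin 20 → ℤ) : ∃ k : ℤ, bd G (G.mulVec v) (G.mulVec v) = 2 * k := by
  have h1 : bd G (G.mulVec v) (G.mulVec v) = ((∑ i, G.mulVec v i * v i : ℤ) : ℝ) := by
    have := bd_add_mulVec hdet (G.mulVec v) 0 v
    rw [zero_add] at this
    rw [this]
    have : bd G (G.mulVec v) 0 = 0 := by
      unfold bd
      have h0 : (fun j : Fin 20 => (((0 : Fin 20 → ℤ) j : ℤ) : ℝ)) = 0 := by funext j; simp
      rw [h0, Matrix.mulVec_zero]
      simp
    rw [this, zero_add]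
  have h2 : Even (∑ i, G.mulVec v i * v i) := by
    have e1 : (∑ i, G.mulVec v i * v i) = ∑ i, ∑ j, G i j * v j * v i := by
      simp [Matrix.mulVec, dotProduct, Finset.sum_mul]
    rw [← ZMod.intCast_eq_zero_iff_even, e1]
    push_cast
    -- modulo two
    have e2 : ∀ x : ZMod 2, x * x = x := by decide
    have e3 : ∀ x : ZMod 2, x + x = 0 := by decide
    -- symmetric sum
    have key : ∀ (n : ℕ) (A : Matrix (Fin n) (Fin n) (ZMod 2)) (x : Fin n → ZMod 2),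
        (∀ i j, A i j = A j i) → (∀ i, A i i = 0) → ∑ i, ∑ j, A i j * x j * x i = 0 := by
      intro n
      induction n with
      | zero => intro A x _ _; simp
      | succ n ih =>
        intro A x hs hd
        rw [Fin.sum_univ_succ]
        simp_rw [Fin.sum_univ_succ]
        rw [hd 0, Finset.sum_add_distrib, ih (fun i j => A i.succ j.succ) (fun i => x i.succ)
          (fun i j => hs _ _) (fun i => hd _)]
        have : ∑ i : Fin n, A i.succ 0 * x 0 * x i.succ = ∑ i : Fin n, A 0 i.succ * x i.succ * x 0 :=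
          Finset.sum_congr rfl fun i _ => by rw [hs i.succ 0]; ring
        rw [this, zero_mul, zero_mul, zero_add, add_zero, e3]
    apply key 20 (fun i j => (G i j : ZMod 2)) (fun i => (v i : ZMod 2))
    · intro i j
      have := congrFun (congrFun hsymm i) j
      simp only [Matrix.transpose_apply] at this
      simp only [this]
    · intro i
      exact (ZMod.intCast_eq_zero_iff_even).2 (heven i)
  obtain ⟨k, hk⟩ := h2
  exact ⟨k, by rw [h1, hk]; push_cast; ring⟩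

end lattice

/-! ### representatives -/

section reps

variable {G : Matrix (Fin 20) (Fin 20) ℤ}

/-- change of the system of representatives in a sum -/
theorem sum_reps {R R' : Finset (Fin 20 → ℤ)} (hR : IsReps G R) (hR' : IsReps G R')
    (g : (Fin 20 → ℤ) → ℂ) (hg : ∀ μ v, g (μ + G.mulVec v) = g μ) :
    ∑ ρ ∈ R, g ρ = ∑ ρ ∈ R', g ρ := by
  choose r hr hru using hR
  choose r' hr' hru' using hR'
  have hgr : ∀ μ, g (r μ) = g μ := by
    intro μ
    obtain ⟨v, hv⟩ := (hr μ).2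
    conv_rhs => rw [hv]
    rw [hg]
  have hgr' : ∀ μ, g (r' μ) = g μ := by
    intro μ
    obtain ⟨v, hv⟩ := (hr' μ).2
    conv_rhs => rw [hv]
    rw [hg]
  refine Finset.sum_nbij' r' r (fun ρ _ => (hr' ρ).1) (fun ρ _ => (hr ρ).1) ?_ ?_ ?_
  · intro ρ hρ
    refine (hru (r' ρ) ρ ⟨hρ, ?_⟩).symm
    obtain ⟨v, hv⟩ := (hr' ρ).2
    refine ⟨-v, ?_⟩
    rw [Matrix.mulVec_neg]
    conv_rhs => rw [hv]
    abel
  · intro ρ hρ
    refine (hru' (r ρ) ρ ⟨hρ, ?_⟩).symm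
    obtain ⟨v, hv⟩ := (hr ρ).2
    refine ⟨-v, ?_⟩
    rw [Matrix.mulVec_neg]
    conv_rhs => rw [hv]
    abel
  · intro ρ _
    exact (hgr' ρ).symm

end reps

/-! ### the norms -/

section norms

variable {G : Matrix (Fin 20) (Fin 20) ℤ} {R : Finset (Fin 20 → ℤ)}

theorem norm_rel (hdet : 0 < G.det)
    (hU : ∀ a : (Fin 20 → ℤ) → ℂ,
      ∑ μ ∈ R, ‖∑ ρ ∈ R, ee (-(bd G μ ρ : ℂ)) * a ρ‖ ^ 2 = (G.det : ℝ) * ∑ ρ ∈ R, ‖a ρ‖ ^ 2)
    (w : ℕ) (f : (Fin 20 → ℤ) → ℂ → ℂ)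
    (hS : ∀ μ, ∀ τ ∈ HH, f μ τ = τ ^ w * (-1 / (Real.sqrt (G.det : ℝ) : ℂ) *
      ∑ ρ ∈ R, ee (-(bd G μ ρ : ℂ)) * f ρ (-1 / τ))) {τ : ℂ} (hτ : τ ∈ HH) :
    ‖τ‖ ^ (2 * w) * ∑ i : R, ‖f i (-1 / τ)‖ ^ 2 = ∑ i : R, ‖f i τ‖ ^ 2 := by
  have hd : (0 : ℝ) < (G.det : ℝ) := by exact_mod_cast hdet
  rw [Finset.sum_coe_sort R (fun μ => ‖f μ (-1 / τ)‖ ^ 2),
    Finset.sum_coe_sort R (fun μ => ‖f μ τ‖ ^ 2)]
  have h1 : ∑ μ ∈ R, ‖f μ τ‖ ^ 2 = ∑ μ ∈ R, (‖τ‖ ^ (2 * w) / (G.det : ℝ)) *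
      ‖∑ ρ ∈ R, ee (-(bd G μ ρ : ℂ)) * f ρ (-1 / τ)‖ ^ 2 := by
    refine Finset.sum_congr rfl fun μ _ => ?_
    rw [hS μ τ hτ, norm_mul, norm_mul, norm_div, norm_neg, norm_one, norm_pow, Complex.norm_real,
      Real.norm_of_nonneg (Real.sqrt_nonneg _), mul_pow, mul_pow, div_pow, Real.sq_sqrt hd.le]
    ring
  rw [h1, ← Finset.mul_sum, hU]
  field_simp

end norms

/-- a common lower bound -/
theorem exists_common {ι : Type*} (R : Finset ι) (κ : ι → ℝ) (a : ℝ) (h : ∀ i ∈ R, a < κ i) :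
    ∃ k : ℝ, a < k ∧ ∀ i ∈ R, k ≤ κ i := by
  classical
  induction R using Finset.induction_on with
  | empty => exact ⟨a + 1, by linarith, by simp⟩
  | insert i R hi ih =>
    obtain ⟨k, hk, hk2⟩ := ih fun j hj => h j (Finset.mem_insert_of_mem hj)
    refine ⟨min k (κ i), lt_min hk (h i (Finset.mem_insert_self _ _)), fun j hj => ?_⟩
    rcases Finset.mem_insert.1 hj with rfl | hj
    · exact min_le_right _ _
    · exact (min_le_left _ _).trans (hk2 j hj)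

/-- vanishing by the lemma on vector valued forms -/
theorem vanish (hVV : JobVV) {G : Matrix (Fin 20) (Fin 20) ℤ} {R : Finset (Fin 20 → ℤ)}
    (hdet : 0 < G.det)
    (hU : ∀ a : (Fin 20 → ℤ) → ℂ,
      ∑ μ ∈ R, ‖∑ ρ ∈ R, ee (-(bd G μ ρ : ℂ)) * a ρ‖ ^ 2 = (G.det : ℝ) * ∑ ρ ∈ R, ‖a ρ‖ ^ 2)
    (hR : IsReps G R)
    (w : ℕ) (f : (Fin 20 → ℤ) → ℂ → ℂ) (hf : ∀ μ, DifferentiableOn ℂ (f μ) HH)
    (hinv : ∀ μ (v : Fin 20 → ℤ), ∀ τ ∈ HH, f (μ + G.mulVec v) τ = f μ τ)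
    (hT : ∀ μ, ∀ τ ∈ HH, f μ (τ + 1) = ee (-((bd G μ μ : ℂ) / 2)) * f μ τ)
    (hS : ∀ μ, ∀ τ ∈ HH, f μ τ = τ ^ w * (-1 / (Real.sqrt (G.det : ℝ) : ℂ) *
      ∑ ρ ∈ R, ee (-(bd G μ ρ : ℂ)) * f ρ (-1 / τ)))
    (hb : ∀ μ, ∃ κ : ℝ, -(w : ℝ) / 12 < κ ∧ ∃ C : ℝ, ∀ τ : ℂ, 1 / 2 ≤ τ.im →
      ‖f μ τ‖ ≤ C * Real.exp (-(2 * Real.pi * κ * τ.im))) :
    ∀ μ, ∀ τ ∈ HH, f μ τ = 0 := by
  choose κ hκ C hC using hb
  obtain ⟨k, hk, hk2⟩ := exists_common R κ _ fun i _ => hκ i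
  have h := hVV R w k (fun τ i => f i τ) hk ?_ ?_ ?_ ?_
  · intro μ τ hτ
    obtain ⟨ρ, ⟨hρ, v, hv⟩, -⟩ := hR μ
    rw [hv, hinv ρ v τ hτ]
    exact h τ hτ ⟨ρ, hρ⟩
  · exact differentiableOn_pi.2 fun i => hf i
  · intro τ hτ
    refine Finset.sum_congr rfl fun i _ => ?_
    rw [hT i τ hτ, norm_mul, norm_ee]
    have : (-((bd G i i : ℂ) / 2)).im = 0 := by
      have : (-((bd G i i : ℂ) / 2)) = ((-(bd G i i / 2) : ℝ) : ℂ) := by push_cast; ring
      rw [this, ofReal_im]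
    rw [this]; simp
  · intro τ hτ
    exact norm_rel hdet hU w f hS hτ
  · refine ⟨∑ i ∈ R, |C i|, fun τ hτ i => ?_⟩
    refine (hC i τ hτ).trans ?_
    have h1 : C i ≤ ∑ i ∈ R, |C i| :=
      (le_abs_self _).trans (Finset.single_le_sum (f := fun i => |C i|) (fun _ _ => abs_nonneg _)
        i.2)
    have h2 : Real.exp (-(2 * Real.pi * κ i * τ.im)) ≤ Real.exp (-(2 * Real.pi * k * τ.im)) := by
      rw [Real.exp_le_exp]
      have h3 := hk2 i i.2
      have h4 : 0 ≤ 2 * Real.pi * τ.im := by positivity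
      nlinarith
    have h5 : (0 : ℝ) ≤ ∑ i ∈ R, |C i| := Finset.sum_nonneg fun _ _ => abs_nonneg _
    calc C i * Real.exp (-(2 * Real.pi * κ i * τ.im)) ≤
        (∑ i ∈ R, |C i|) * Real.exp (-(2 * Real.pi * κ i * τ.im)) := by gcongr
      _ ≤ _ := by gcongr

theorem job (hVV : JobVV) (hFF : JobFinFour) : JobODE := by
  intro G R0 f hG heven hR0 hf hb1 hb2 hne
  obtain ⟨hdet, R, hR, hcard, hU⟩ := hFF G hG
  have hd : (0 : ℝ) < (G.det : ℝ) := by exact_mod_cast hdet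
  have hdf : ∀ μ, DifferentiableOn ℂ (f μ) HH := hf.holo
  have hinv : ∀ μ (v : Fin 20 → ℤ), ∀ τ ∈ HH, f (μ + G.mulVec v) τ = f μ τ :=
    fun μ v τ hτ => hf.inv μ v τ hτ
  have hT : ∀ μ, ∀ τ ∈ HH, f μ (τ + 1) = ee (-((bd G μ μ : ℂ) / 2)) * f μ τ :=
    fun μ τ hτ => hf.T μ τ hτ
  have hS : ∀ μ, ∀ τ ∈ HH, f μ τ = τ ^ 10 * (-1 / (Real.sqrt (G.det : ℝ) : ℂ) *
      ∑ ρ ∈ R, ee (-(bd G μ ρ : ℂ)) * f ρ (-1 / τ)) := by
    intro μ τ hτ
    rw [← sum_reps hR0 hR (fun ρ => ee (-(bd G μ ρ : ℂ)) * f ρ (-1 / τ)) (fun ρ v => by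
      rw [ee_bd_add hdet, hinv ρ v _ (neg_inv_mem hτ)])]
    rw [hf.S μ τ hτ]; ring
  obtain ⟨μ1, τ1, hτ1, hμ1⟩ := hne
  -- the operator applied to the components
  have hψ : ∀ μ, ∀ τ ∈ HH, Lop (f μ) τ = 0 := by
    refine vanish hVV hdet hU hR 6 (fun μ => Lop (f μ)) (fun μ => Lop_diff (hdf μ)) ?_ ?_ ?_ ?_
    · intro μ v τ hτ
      exact Lop_congr (fun τ hτ => hinv μ v τ hτ) hτ
    · intro μ τ hτ
      exact Lop_T (hT μ) hτ
    · intro μ τ hτ
      exact Lop_rel _ R (fun ρ => ee (-(bd G μ ρ : ℂ))) (f μ) f (fun i _ => hdf i) (hS μ) hτ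
    · intro μ
      by_cases hμ : ∃ v : Fin 20 → ℤ, μ = G.mulVec v
      · obtain ⟨M, u, ⟨k, hk⟩, hM1, hM2, hu, huf⟩ := exists_expansion (c := 1) (hdf μ) (hT μ) (by
          obtain ⟨C, hC⟩ := hb1 μ
          exact ⟨C, fun τ hτ => by simpa using hC τ hτ⟩)
        obtain ⟨v, rfl⟩ := hμ
        obtain ⟨l, hl⟩ := bd_even hdet hG.symm heven v
        have hM : M = -1 := by
          rw [hl] at hk
          have hk' : M = ((k - l : ℤ) : ℝ) := by rw [hk]; push_cast; ring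
          rw [hk'] at hM1 hM2 ⊢
          have h1 : (-1 : ℤ) ≤ k - l := by exact_mod_cast hM1
          have h2 : k - l < (0 : ℤ) := by
            have : ((k - l : ℤ) : ℝ) < ((0 : ℤ) : ℝ) := by push_cast at hM2 ⊢; linarith
            exact_mod_cast this
          have : k - l = -1 := by omega
          rw [this]; norm_num
        obtain ⟨w, hw, hw0, hwL⟩ := Lop_disc le_rfl M hu fun τ hτ _ => huf τ hτ
        rw [hM] at hw0
        obtain ⟨C, -, hC⟩ := norm_le_of_disc' hw (fun τ hτ => hwL τ hτ (norm_ee_lt hτ)) (by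
          rw [hw0]; simp)
        exact ⟨M + 1, by rw [hM]; norm_num, C, hC⟩
      · obtain ⟨M, u, ⟨k, hk⟩, hM1, hM2, hu, huf⟩ := exists_expansion (c := 1 / 2) (hdf μ) (hT μ) (by
          obtain ⟨C, hC⟩ := hb2 μ hμ
          exact ⟨C, fun τ hτ => by
            have := hC τ hτ
            rwa [show 2 * Real.pi * (1 / 2) * τ.im = Real.pi * τ.im by ring]⟩)
        obtain ⟨w, hw, hw0, hwL⟩ := Lop_disc le_rfl M hu fun τ hτ _ => huf τ hτ
        rcases hM1.eq_or_lt with hM | hM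
        · rw [← hM] at hw0
          obtain ⟨C, -, hC⟩ := norm_le_of_disc' hw (fun τ hτ => hwL τ hτ (norm_ee_lt hτ)) (by
            rw [hw0]; push_cast; ring)
          exact ⟨M + 1, by rw [← hM]; norm_num, C, hC⟩
        · obtain ⟨C, -, hC⟩ := norm_le_of_disc hw (fun τ hτ => hwL τ hτ (norm_ee_lt hτ))
          exact ⟨M, by norm_num; linarith, C, hC⟩
  -- the component of zero
  obtain ⟨M0, u0, ⟨k0, hk0⟩, hM01, hM02, hu0, hu0f⟩ := exists_expansion (c := 1) (hdf 0) (hT 0) (by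
    obtain ⟨C, hC⟩ := hb1 0
    exact ⟨C, fun τ hτ => by simpa using hC τ hτ⟩)
  have hM0 : M0 = -1 := by
    rw [bd_zero_left] at hk0
    have hk' : M0 = (k0 : ℝ) := by rw [hk0]; ring
    rw [hk'] at hM01 hM02 ⊢
    have h1 : (-1 : ℤ) ≤ k0 := by exact_mod_cast hM01
    have h2 : k0 < (0 : ℤ) := by
      have : (k0 : ℝ) < ((0 : ℤ) : ℝ) := by push_cast at hM02 ⊢; linarith
      exact_mod_cast this
    have : k0 = -1 := by omega
    rw [this]; norm_num
  subst hM0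
  have hβ : u0 0 ≠ 0 := by
    intro h0
    apply hμ1
    refine vanish hVV hdet hU hR 10 f hdf hinv hT hS ?_ μ1 τ1 hτ1
    intro μ
    refine ⟨-(1 / 2), by norm_num, ?_⟩
    by_cases hμ : ∃ v : Fin 20 → ℤ, μ = G.mulVec v
    · obtain ⟨v, rfl⟩ := hμ
      obtain ⟨C, hC0, hC⟩ := norm_le_of_disc' hu0 hu0f h0
      refine ⟨C, fun τ hτ => ?_⟩
      have h1 : f (G.mulVec v) τ = f 0 τ := by
        have := hinv 0 v τ (by rw [mem_HH]; linarith)
        rwa [zero_add] at this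
      rw [h1]
      refine (hC τ hτ).trans ?_
      gcongr
      have : 0 ≤ Real.pi * τ.im := by positivity
      nlinarith
    · obtain ⟨C, hC⟩ := hb2 μ hμ
      refine ⟨C, fun τ hτ => ?_⟩
      have := hC τ hτ
      rwa [show -(2 * Real.pi * -(1 / 2) * τ.im) = Real.pi * τ.im by ring]
  -- no component vanishes identically
  have hnz : ∀ μ, ∃ τ ∈ HH, f μ τ ≠ 0 := by
    intro μ
    by_contra hc
    push Not at hc
    apply hβ
    obtain ⟨ρ0, ⟨hρ0, v0, hv0⟩, hρ0u⟩ := hR 0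
    have hsum : ∀ σ ∈ HH, ∑ ρ ∈ R, ee (-(bd G μ ρ : ℂ)) * f ρ σ = 0 := by
      intro σ hσ
      have h1 := hS μ (-1 / σ) (neg_inv_mem hσ)
      have h2 : -1 / (-1 / σ) = σ := by
        have := ne_zero_of_mem hσ
        field_simp
      rw [hc _ (neg_inv_mem hσ), h2] at h1
      have h3 : (-1 / σ) ^ 10 ≠ 0 := pow_ne_zero _ (ne_zero_of_mem (neg_inv_mem hσ))
      have h4 : (-1 / (Real.sqrt (G.det : ℝ) : ℂ)) ≠ 0 := by
        have : (Real.sqrt (G.det : ℝ) : ℂ) ≠ 0 := by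
          exact_mod_cast (Real.sqrt_pos.2 hd).ne'
        exact div_ne_zero (by norm_num) this
      rcases mul_eq_zero.1 h1.symm with h5 | h5
      · exact absurd h5 h3
      · rcases mul_eq_zero.1 h5 with h6 | h6
        · exact absurd h6 h4
        · exact h6
    have hρb : ∀ ρ ∈ R.erase ρ0, ∃ C : ℝ, ∀ τ : ℂ, 1 / 2 ≤ τ.im →
        ‖f ρ τ‖ ≤ C * Real.exp (Real.pi * τ.im) := by
      intro ρ hρ
      apply hb2
      rintro ⟨v, hv⟩
      apply (Finset.mem_erase.1 hρ).1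
      refine hρ0u ρ ⟨Finset.mem_of_mem_erase hρ, -v, ?_⟩
      rw [Matrix.mulVec_neg, hv]; simp
    choose! C hC using hρb
    -- the component of zero is small
    have hsmall : ∀ t : ℝ, 1 / 2 ≤ t → ‖u0 (ee (I * t))‖ ≤
        (∑ ρ ∈ R.erase ρ0, C ρ) * Real.exp (-(Real.pi * t)) := by
      intro t ht
      have hm : I * (t : ℂ) ∈ HH := it_mem (by linarith)
      have him : (I * (t : ℂ)).im = t := by simp
      have h1 := hsum _ hm
      rw [← Finset.add_sum_erase _ _ hρ0] at h1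
      have h2 : f ρ0 (I * t) = f 0 (I * t) := by
        have := hinv ρ0 v0 _ hm
        rw [← hv0] at this
        exact this.symm
      have hre : ∀ μ ρ, ‖ee (-(bd G μ ρ : ℂ))‖ = 1 := by
        intro μ ρ
        rw [norm_ee]
        have : (-(bd G μ ρ : ℂ)).im = 0 := by rw [neg_im, ofReal_im, neg_zero]
        rw [this]; simp
      have h3 : ‖f 0 (I * t)‖ ≤ (∑ ρ ∈ R.erase ρ0, C ρ) * Real.exp (Real.pi * t) := by
        have h4 : ee (-(bd G μ ρ0 : ℂ)) * f 0 (I * t) =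
            -∑ ρ ∈ R.erase ρ0, ee (-(bd G μ ρ : ℂ)) * f ρ (I * t) := by
          rw [← h2]; exact eq_neg_of_add_eq_zero_left h1
        have h5 : ‖f 0 (I * t)‖ = ‖ee (-(bd G μ ρ0 : ℂ)) * f 0 (I * t)‖ := by
          rw [norm_mul, hre, one_mul]
        rw [h5, h4, norm_neg, Finset.sum_mul]
        refine norm_sum_le_of_le _ fun ρ hρ => ?_
        rw [norm_mul, hre, one_mul]
        have := hC ρ hρ (I * t) (by rw [him]; exact ht)
        rwa [him] at this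
      have h6 := hu0f _ hm
      rw [h6, norm_mul, norm_ee] at h3
      have h7 : ((((-1 : ℝ) : ℂ)) * (I * (t : ℂ))).im = -t := by simp
      rw [h7] at h3
      have h8 : Real.exp (-(2 * Real.pi * -t)) = Real.exp (Real.pi * t) * Real.exp (Real.pi * t) := by
        rw [← Real.exp_add]; congr 1; ring
      rw [h8] at h3
      have h9 : (0 : ℝ) < Real.exp (Real.pi * t) := Real.exp_pos _
      have h10 : Real.exp (Real.pi * t) * ‖u0 (ee (I * t))‖ ≤ ∑ ρ ∈ R.erase ρ0, C ρ := by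
        have : Real.exp (Real.pi * t) * (Real.exp (Real.pi * t) * ‖u0 (ee (I * t))‖) ≤
            Real.exp (Real.pi * t) * ∑ ρ ∈ R.erase ρ0, C ρ := by linarith
        exact le_of_mul_le_mul_left this h9
      rw [Real.exp_neg, ← div_eq_mul_inv, le_div_iff₀ h9]
      linarith
    apply zero_of_tendsto one_pos hu0
    rw [tendsto_zero_iff_norm_tendsto_zero]
    have hlim : Tendsto (fun t : ℝ => (∑ ρ ∈ R.erase ρ0, C ρ) * Real.exp (-(Real.pi * t)))
        atTop (𝓝 0) := by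
      rw [show (0 : ℝ) = (∑ ρ ∈ R.erase ρ0, C ρ) * 0 by ring]
      apply Tendsto.const_mul
      apply Real.tendsto_exp_atBot.comp
      apply tendsto_neg_atTop_atBot.comp
      exact tendsto_id.const_mul_atTop Real.pi_pos
    refine squeeze_zero' (Eventually.of_forall fun _ => norm_nonneg _) ?_ hlim
    filter_upwards [eventually_ge_atTop (1 / 2 : ℝ)] with t ht using hsmall t ht
  refine ⟨?_, ?_⟩
  · -- the discriminant form
    intro μ hμ
    obtain ⟨M, u, ⟨k, hk⟩, hM1, hM2, hu, huf⟩ := exists_expansion (c := 1 / 2) (hdf μ) (hT μ) (by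
      obtain ⟨C, hC⟩ := hb2 μ hμ
      exact ⟨C, fun τ hτ => by
        have := hC τ hτ
        rwa [show 2 * Real.pi * (1 / 2) * τ.im = Real.pi * τ.im by ring]⟩)
    obtain ⟨m, hm⟩ := lead_exponent hu huf (hψ μ) (hnz μ)
    have hm0 : (0 : ℝ) ≤ m := Nat.cast_nonneg m
    have hM : M = -(1 / 2) := by
      rcases mul_eq_zero.1 hm with h1 | h1 <;> linarith
    refine ⟨k, ?_⟩
    linarith
  · -- unimodular forms are excluded
    intro h1
    obtain ⟨τ, hτ, hτne⟩ := hnz 0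
    apply hτne
    have hR1 : R.card = 1 := by
      have : (R.card : ℤ) = 1 := by rw [hcard, h1]
      exact_mod_cast this
    obtain ⟨ρ0, hρ0⟩ := Finset.card_eq_one.1 hR1
    have hf0 : ∀ σ ∈ HH, f 0 σ = -σ ^ 10 * f 0 (-1 / σ) := by
      intro σ hσ
      have h2 := hS 0 σ hσ
      rw [hρ0, Finset.sum_singleton, bd_zero_left, h1] at h2
      obtain ⟨ρ, ⟨hρ, v, hv⟩, -⟩ := hR 0
      rw [hρ0, Finset.mem_singleton] at hρ
      subst hρ
      have h3 : f ρ (-1 / σ) = f 0 (-1 / σ) := by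
        have := hinv ρ v _ (neg_inv_mem hσ)
        rw [← hv] at this
        exact this.symm
      rw [h3] at h2
      rw [h2]
      simp [ee_zero]
    have hf1 : ∀ σ ∈ HH, f 0 σ = -(σ + 1) ^ 10 * f 0 (-1 / (σ + 1)) := by
      intro σ hσ
      have h2 := hT 0 σ hσ
      rw [bd_zero_left] at h2
      simp only [ofReal_zero, zero_div, neg_zero, ee_zero, one_mul] at h2
      rw [← h2]
      exact hf0 _ (add_one_mem hσ)
    have hm1 := neg_inv_mem (add_one_mem hτ)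
    have hm2 := neg_inv_mem (add_one_mem hm1)
    have e1 := hf1 τ hτ
    have e2 := hf1 _ hm1
    have e3 := hf1 _ hm2
    have n1 := ne_zero_of_mem (add_one_mem hτ)
    have n0 := ne_zero_of_mem hτ
    have n2 := ne_zero_of_mem (add_one_mem hm1)
    have n3 := ne_zero_of_mem (add_one_mem hm2)
    have c1 : -1 / (τ + 1) + 1 = τ / (τ + 1) := by field_simp; ring
    have c2 : -1 / (-1 / (τ + 1) + 1) = -(τ + 1) / τ := by rw [c1]; field_simp
    have c3 : -1 / (-1 / (τ + 1) + 1) + 1 = -1 / τ := by rw [c2]; field_simp; ring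
    have c4 : -1 / (-1 / (-1 / (τ + 1) + 1) + 1) = τ := by rw [c3]; field_simp
    rw [c4] at e3
    rw [e3, c3] at e2
    rw [e2, c1] at e1
    have e4 : f 0 τ = -f 0 τ := by
      conv_lhs => rw [e1]
      field_simp
    have : (2 : ℂ) * f 0 τ = 0 := by linear_combination e4
    simpa using this

end Pool.Agent.Y852.RL
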