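import Pool.Agent.Y852.RL.Serre

/-!
# The modular differential operator of order two
-/

set_option autoImplicit false

open Complex Filter Topology
open UpperHalfPlane hiding I
open scoped Manifold

namespace Pool.Agent.Y852.RL

open Pool.Agent.Y813.RL

/-- the operator `D_{-8} D_{-10} - E_4 / 18` -/
noncomputable def Lop (f : ℂ → ℂ) (τ : ℂ) : ℂ :=
  sd (-((6 + 2 : ℕ) : ℂ)) (sd (-((8 + 2 : ℕ) : ℂ)) f) τ - 1 / 18 * P4 τ * f τ

theorem Lop_diff {f : ℂ → ℂ} (hf : DifferentiableOn ℂ f HH) : DifferentiableOn ℂ (Lop f) HH := by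
  unfold Lop
  exact (sd_diff (sd_diff hf)).sub ((P4_diff.const_mul _).mul hf)

theorem Lop_congr {f g : ℂ → ℂ} (h : ∀ τ ∈ HH, f τ = g τ) {τ : ℂ} (hτ : τ ∈ HH) :
    Lop f τ = Lop g τ := by
  unfold Lop
  rw [sd_congr (fun τ hτ => sd_congr h hτ) hτ, h τ hτ]

theorem Lop_T {c : ℂ} {f : ℂ → ℂ} (h : ∀ τ ∈ HH, f (τ + 1) = c * f τ)
    {τ : ℂ} (hτ : τ ∈ HH) : Lop f (τ + 1) = c * Lop f τ := by
  unfold Lop
  rw [sd_T (fun τ hτ => sd_T h hτ) hτ, P4_T hτ, h τ hτ]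
  ring

theorem Lop_rel {ι : Type*} (c : ℂ) (R : Finset ι) (a : ι → ℂ) (F : ℂ → ℂ)
    (f : ι → ℂ → ℂ) (hf : ∀ i ∈ R, DifferentiableOn ℂ (f i) HH)
    (h : ∀ τ ∈ HH, F τ = τ ^ 10 * (c * ∑ i ∈ R, a i * f i (-1 / τ))) {τ : ℂ} (hτ : τ ∈ HH) :
    Lop F τ = τ ^ 6 * (c * ∑ i ∈ R, a i * Lop (f i) (-1 / τ)) := by
  have h1 : ∀ τ ∈ HH, sd (-((8 + 2 : ℕ) : ℂ)) F τ =
      τ ^ 8 * (c * ∑ i ∈ R, a i * sd (-((8 + 2 : ℕ) : ℂ)) (f i) (-1 / τ)) :=
    fun τ hτ => sd_rel c R a F f hf h hτ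
  have h2 := sd_rel (m := 6) c R a _ _ (fun i hi => sd_diff (k := (-((8 + 2 : ℕ) : ℂ))) (hf i hi))
    h1 hτ
  unfold Lop
  rw [h2, h τ hτ]
  simp only [mul_sub, Finset.sum_sub_distrib]
  congr 1
  rw [show (∑ x ∈ R, a x * (1 / 18 * P4 (-1 / τ) * f x (-1 / τ))) =
    1 / 18 * P4 (-1 / τ) * ∑ x ∈ R, a x * f x (-1 / τ) by
      rw [Finset.mul_sum]; exact Finset.sum_congr rfl fun i _ => by ring, P4_S hτ]
  ring

theorem Lop_disc {r : ℝ} (hr1 : r ≤ 1) (M : ℝ) {f u : ℂ → ℂ}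
    (hu : DifferentiableOn ℂ u (Metric.ball 0 r))
    (h : ∀ τ ∈ HH, ‖ee τ‖ < r → f τ = ee (M * τ) * u (ee τ)) :
    ∃ w : ℂ → ℂ, DifferentiableOn ℂ w (Metric.ball 0 r) ∧
      w 0 = ((M : ℂ) + 1) * (M + 1 / 2) * u 0 ∧
      ∀ τ ∈ HH, ‖ee τ‖ < r → Lop f τ = ee (M * τ) * w (ee τ) := by
  obtain ⟨e, he, he0, heP⟩ := P4_disc
  have hsub : Metric.ball (0 : ℂ) r ⊆ Metric.ball 0 1 := Metric.ball_subset_ball hr1
  obtain ⟨w1, hw1, hw10, hw1f⟩ := sd_disc hr1 (k := (-((8 + 2 : ℕ) : ℂ))) M hu h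
  obtain ⟨w2, hw2, hw20, hw2f⟩ := sd_disc hr1 (k := (-((6 + 2 : ℕ) : ℂ))) M hw1 hw1f
  refine ⟨fun q => w2 q - 1 / 18 * e q * u q, ?_, ?_, ?_⟩
  · exact hw2.sub (((he.mono hsub).const_mul _).mul hu)
  · simp only [he0, hw20, hw10]
    push_cast
    ring
  · intro τ hτ hlt
    unfold Lop
    rw [hw2f τ hτ hlt, heP τ hτ, h τ hτ hlt]
    ring

/-! ### expansions -/

theorem ee_it (t : ℝ) : ee (I * t) = (Real.exp (-(2 * Real.pi * t)) : ℝ) := by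
  unfold ee
  rw [ofReal_exp]
  congr 1
  push_cast
  rw [show 2 * (Real.pi : ℂ) * I * (I * t) = 2 * Real.pi * t * (I * I) by ring, I_mul_I]
  ring

theorem tendsto_ee_it : Tendsto (fun t : ℝ => ee (I * t)) atTop (𝓝 0) := by
  rw [tendsto_zero_iff_norm_tendsto_zero]
  have h1 : (fun t : ℝ => ‖ee (I * t)‖) = fun t : ℝ => Real.exp (-(2 * Real.pi * t)) := by
    funext t
    rw [norm_ee]; simp
  rw [h1]
  apply Real.tendsto_exp_atBot.comp
  apply tendsto_neg_atTop_atBot.comp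
  exact tendsto_id.const_mul_atTop (by positivity)

theorem it_mem {t : ℝ} (ht : 0 < t) : I * (t : ℂ) ∈ HH := by
  rw [mem_HH]; simpa using ht

/-- if `u (ee (it))` tends to zero then `u 0 = 0` -/
theorem zero_of_tendsto {r : ℝ} (hr : 0 < r) {u : ℂ → ℂ}
    (hu : DifferentiableOn ℂ u (Metric.ball 0 r))
    (h : Tendsto (fun t : ℝ => u (ee (I * t))) atTop (𝓝 0)) : u 0 = 0 := by
  have hc : ContinuousAt u 0 :=
    (hu.differentiableAt (Metric.ball_mem_nhds 0 hr)).continuousAt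
  exact tendsto_nhds_unique (hc.tendsto.comp tendsto_ee_it) h

/-- division by `q` -/
theorem exists_div {r : ℝ} (hr : 0 < r) {u : ℂ → ℂ}
    (hu : DifferentiableOn ℂ u (Metric.ball 0 r)) (h0 : u 0 = 0) :
    ∃ v : ℂ → ℂ, DifferentiableOn ℂ v (Metric.ball 0 r) ∧ ∀ q, u q = q * v q := by
  refine ⟨dslope u 0, ?_, ?_⟩
  · exact (Complex.differentiableOn_dslope (Metric.ball_mem_nhds 0 hr)).2 hu
  · intro q
    have := sub_smul_dslope u 0 q
    rw [h0, sub_zero, sub_zero, smul_eq_mul] at this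
    exact this.symm

/-- boundedness -/
theorem exists_bound {u : ℂ → ℂ} (hu : DifferentiableOn ℂ u (Metric.ball 0 1)) :
    ∃ C : ℝ, 0 ≤ C ∧ ∀ τ : ℂ, 1 / 2 ≤ τ.im → ‖u (ee τ)‖ ≤ C := by
  have hlt : Real.exp (-Real.pi) < 1 := by
    rw [Real.exp_lt_one_iff]; linarith [Real.pi_pos]
  have hsub : Metric.closedBall (0 : ℂ) (Real.exp (-Real.pi)) ⊆ Metric.ball 0 1 :=
    Metric.closedBall_subset_ball hlt
  have hc : ContinuousOn u (Metric.closedBall (0 : ℂ) (Real.exp (-Real.pi))) :=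
    (hu.continuousOn).mono hsub
  obtain ⟨C, hC⟩ := (isCompact_closedBall (0 : ℂ) (Real.exp (-Real.pi))).exists_bound_of_continuousOn
    hc
  refine ⟨max C 0, le_max_right _ _, fun τ hτ => (hC _ ?_).trans (le_max_left _ _)⟩
  rw [mem_closedBall_zero_iff, norm_ee, Real.exp_le_exp]
  nlinarith [Real.pi_pos]

theorem norm_le_of_disc {M : ℝ} {f u : ℂ → ℂ} (hu : DifferentiableOn ℂ u (Metric.ball 0 1))
    (h : ∀ τ ∈ HH, f τ = ee (M * τ) * u (ee τ)) :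
    ∃ C : ℝ, 0 ≤ C ∧ ∀ τ : ℂ, 1 / 2 ≤ τ.im → ‖f τ‖ ≤ C * Real.exp (-(2 * Real.pi * M * τ.im)) := by
  obtain ⟨C, hC0, hC⟩ := exists_bound hu
  refine ⟨C, hC0, fun τ hτ => ?_⟩
  have hm : τ ∈ HH := by rw [mem_HH]; linarith
  rw [h τ hm, norm_mul, mul_comm, norm_ee]
  have : (M * τ : ℂ).im = M * τ.im := by simp
  rw [this, show 2 * Real.pi * (M * τ.im) = 2 * Real.pi * M * τ.im by ring]
  exact mul_le_mul_of_nonneg_right (hC τ hτ) (Real.exp_pos _).le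

theorem norm_le_of_disc' {M : ℝ} {f u : ℂ → ℂ} (hu : DifferentiableOn ℂ u (Metric.ball 0 1))
    (h : ∀ τ ∈ HH, f τ = ee (M * τ) * u (ee τ)) (h0 : u 0 = 0) :
    ∃ C : ℝ, 0 ≤ C ∧ ∀ τ : ℂ, 1 / 2 ≤ τ.im →
      ‖f τ‖ ≤ C * Real.exp (-(2 * Real.pi * (M + 1) * τ.im)) := by
  obtain ⟨v, hv, hv2⟩ := exists_div one_pos hu h0
  refine norm_le_of_disc (M := M + 1) hv fun τ hτ => ?_
  rw [h τ hτ, hv2]
  push_cast
  rw [add_mul, one_mul, ee_add]
  ring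

/-- the expansion of a function with a multiplier -/
theorem exists_expansion {b c : ℝ} {f : ℂ → ℂ} (hf : DifferentiableOn ℂ f HH)
    (hT : ∀ τ ∈ HH, f (τ + 1) = ee (-((b : ℂ) / 2)) * f τ)
    (hb : ∃ C : ℝ, ∀ τ : ℂ, 1 / 2 ≤ τ.im → ‖f τ‖ ≤ C * Real.exp (2 * Real.pi * c * τ.im)) :
    ∃ (M : ℝ) (u : ℂ → ℂ), (∃ k : ℤ, M = -b / 2 + k) ∧ -c ≤ M ∧ M < 1 - c ∧
      DifferentiableOn ℂ u (Metric.ball 0 1) ∧ ∀ τ ∈ HH, f τ = ee (M * τ) * u (ee τ) := by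
  obtain ⟨C, hC⟩ := hb
  obtain ⟨k, hk⟩ : ∃ k : ℤ, k = ⌈-c + b / 2⌉ := ⟨_, rfl⟩
  have hk1 : -c + b / 2 ≤ k := by rw [hk]; exact Int.le_ceil _
  have hk2 : (k : ℝ) < -c + b / 2 + 1 := by rw [hk]; exact Int.ceil_lt_add_one _
  obtain ⟨M, hM⟩ : ∃ M : ℝ, M = -b / 2 + k := ⟨_, rfl⟩
  have hC0 : 0 ≤ C := by
    have := hC (I * ((1 : ℝ) : ℂ)) (by simp; norm_num)
    have h2 := (norm_nonneg _).trans this
    exact nonneg_of_mul_nonneg_left h2 (Real.exp_pos _)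
  have hnorm : ∀ τ : ℂ, 1 / 2 ≤ τ.im → ‖ee (-((M - 1 : ℝ) : ℂ) * τ) * f τ‖ ≤
      C * Real.exp (2 * Real.pi * (M - 1 + c) * τ.im) := by
    intro τ hτ
    rw [norm_mul, norm_ee]
    have : (-((M - 1 : ℝ) : ℂ) * τ).im = -(M - 1) * τ.im := by simp
    rw [this]
    calc Real.exp (-(2 * Real.pi * (-(M - 1) * τ.im))) * ‖f τ‖ ≤
        Real.exp (-(2 * Real.pi * (-(M - 1) * τ.im))) * (C * Real.exp (2 * Real.pi * c * τ.im)) := by
          gcongr; exact hC τ hτ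
      _ = C * (Real.exp (-(2 * Real.pi * (-(M - 1) * τ.im))) *
          Real.exp (2 * Real.pi * c * τ.im)) := by ring
      _ = _ := by rw [← Real.exp_add]; congr 2; ring
  obtain ⟨U, hU, hUf⟩ := exists_disc (g := fun τ => ee (-((M - 1 : ℝ) : ℂ) * τ) * f τ) (by
      refine DifferentiableOn.mul (fun τ _ => ?_) hf
      exact (hasDerivAt_ee_mul _ τ).differentiableAt.differentiableWithinAt)
    (by
      intro τ hτ
      rw [hT τ hτ, mul_add, mul_one, ee_add]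
      have : ee (-((M - 1 : ℝ) : ℂ)) * ee (-((b : ℂ) / 2)) = 1 := by
        rw [← ee_add]
        have : (-((M - 1 : ℝ) : ℂ)) + (-((b : ℂ) / 2)) = ((1 - k : ℤ) : ℂ) := by
          rw [hM]; push_cast; ring
        rw [this, ee_int]
      calc _ = ee (-((M - 1 : ℝ) : ℂ) * τ) * f τ *
            (ee (-((M - 1 : ℝ) : ℂ)) * ee (-((b : ℂ) / 2))) := by ring
        _ = _ := by rw [this, mul_one])
    ⟨C, fun τ hτ => (hnorm τ hτ).trans (by
      have : Real.exp (2 * Real.pi * (M - 1 + c) * τ.im) ≤ 1 := by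
        rw [Real.exp_le_one_iff]
        have h1 : M - 1 + c ≤ 0 := by rw [hM]; linarith
        have h2 : 0 ≤ 2 * Real.pi * τ.im := by positivity
        nlinarith
      nlinarith)⟩
  have hU0 : U 0 = 0 := by
    apply zero_of_tendsto one_pos hU
    rw [tendsto_zero_iff_norm_tendsto_zero]
    have hlim : Tendsto (fun t : ℝ => C * Real.exp (2 * Real.pi * (M - 1 + c) * t)) atTop (𝓝 0) := by
      rw [show (0 : ℝ) = C * 0 by ring]
      apply Tendsto.const_mul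
      apply Real.tendsto_exp_atBot.comp
      apply tendsto_id.const_mul_atTop_of_neg
      have : M - 1 + c < 0 := by rw [hM]; linarith
      have h2 : 0 < 2 * Real.pi := by positivity
      nlinarith
    refine squeeze_zero' (Eventually.of_forall fun _ => norm_nonneg _) ?_ hlim
    filter_upwards [eventually_ge_atTop (1 / 2 : ℝ)] with t ht
    have hm : I * (t : ℂ) ∈ HH := it_mem (by linarith)
    rw [← hUf _ hm]
    have := hnorm (I * (t : ℂ)) (by simpa using ht)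
    simpa using this
  obtain ⟨u, hu, huU⟩ := exists_div one_pos hU hU0
  refine ⟨M, u, ⟨k, hM⟩, by rw [hM]; linarith, by rw [hM]; linarith, hu, fun τ hτ => ?_⟩
  have h1 := hUf τ hτ
  rw [huU] at h1
  have h2 : ee (M * τ) = ee τ * ee (((M - 1 : ℝ) : ℂ) * τ) := by
    rw [← ee_add]; congr 1; push_cast; ring
  have h3 : ee (((M - 1 : ℝ) : ℂ) * τ) * ee (-((M - 1 : ℝ) : ℂ) * τ) = 1 := by
    rw [← ee_add, ← ee_zero]; congr 1; ring
  rw [h2]
  calc f τ = (ee (((M - 1 : ℝ) : ℂ) * τ) * ee (-((M - 1 : ℝ) : ℂ) * τ)) * f τ := by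
        rw [h3, one_mul]
    _ = ee (((M - 1 : ℝ) : ℂ) * τ) * (ee (-((M - 1 : ℝ) : ℂ) * τ) * f τ) := by ring
    _ = _ := by rw [h1]; ring

/-- the leading exponent of a solution -/
theorem lead_exponent {M : ℝ} {f u : ℂ → ℂ} (hu : DifferentiableOn ℂ u (Metric.ball 0 1))
    (h : ∀ τ ∈ HH, f τ = ee (M * τ) * u (ee τ)) (hL : ∀ τ ∈ HH, Lop f τ = 0)
    (hne : ∃ τ ∈ HH, f τ ≠ 0) : ∃ m : ℕ, (M + m + 1) * (M + m + 1 / 2) = 0 := by
  have han : AnalyticOnNhd ℂ u (Metric.ball 0 1) := hu.analyticOnNhd Metric.isOpen_ball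
  have han0 : AnalyticAt ℂ u 0 := han 0 (Metric.mem_ball_self one_pos)
  have hnz : ¬ ∀ᶠ z in 𝓝 (0 : ℂ), u z = 0 := by
    intro hz
    obtain ⟨τ, hτ, hτne⟩ := hne
    apply hτne
    have := han.eqOn_zero_of_preconnected_of_eventuallyEq_zero
      (convex_ball (0 : ℂ) 1).isPreconnected (Metric.mem_ball_self one_pos) hz
    rw [h τ hτ, this (mem_ball_zero_iff.2 (norm_ee_lt hτ))]
    simp
  obtain ⟨m, v, hv, hv0, hvu⟩ := han0.exists_eventuallyEq_pow_smul_nonzero_iff.2 hnz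
  simp only [sub_zero, smul_eq_mul] at hvu
  obtain ⟨r, hr, hrv⟩ := Metric.eventually_nhds_iff_ball.1 (hvu.and hv.eventually_analyticAt)
  obtain ⟨s, hs⟩ : ∃ s : ℝ, s = min r 1 := ⟨_, rfl⟩
  have hs0 : 0 < s := by rw [hs]; exact lt_min hr one_pos
  have hs1 : s ≤ 1 := by rw [hs]; exact min_le_right _ _
  have hsr : s ≤ r := by rw [hs]; exact min_le_left _ _
  have hvd : DifferentiableOn ℂ v (Metric.ball 0 s) := fun q hq =>
    ((hrv q (Metric.ball_subset_ball hsr hq)).2).differentiableAt.differentiableWithinAt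
  obtain ⟨w, hw, hw0, hwL⟩ := Lop_disc hs1 (M + m) (f := f) hvd (by
    intro τ hτ hlt
    rw [h τ hτ, (hrv (ee τ) (Metric.ball_subset_ball hsr (mem_ball_zero_iff.2 hlt))).1]
    have : ee (((M + m : ℝ) : ℂ) * τ) = ee (M * τ) * ee τ ^ m := by
      push_cast
      rw [add_mul, ee_add]
      congr 1
      unfold ee
      rw [← Complex.exp_nat_mul]; congr 1; ring
    rw [this]; ring)
  have hwz : ∀ q ∈ Metric.ball (0 : ℂ) s, q ≠ 0 → w q = 0 := by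
    intro q hq hq0
    have hqs := mem_ball_zero_iff.1 hq
    obtain ⟨τ, hτ, rfl⟩ := exists_ee hq0 (hqs.trans_le hs1)
    have h1 := hwL τ hτ hqs
    rw [hL τ hτ] at h1
    rcases mul_eq_zero.1 h1.symm with h2 | h2
    · exact absurd h2 (ee_ne _)
    · exact h2
  have hw0' : w 0 = 0 := by
    apply zero_of_tendsto hs0 hw
    apply tendsto_const_nhds.congr'
    filter_upwards [tendsto_ee_it.eventually (Metric.ball_mem_nhds 0 hs0)] with t ht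
    exact (hwz _ ht (ee_ne _)).symm
  rw [hw0'] at hw0
  refine ⟨m, ?_⟩
  rcases mul_eq_zero.1 hw0.symm with h1 | h1
  · have h2 : (((M + m + 1) * (M + m + 1 / 2) : ℝ) : ℂ) = 0 := by
      push_cast at h1 ⊢
      exact h1
    exact_mod_cast h2
  · exact absurd h1 hv0

end Pool.Agent.Y852.RL
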