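import Pool.Agent.Y813.RL.Stm

/-!
# Serre derivatives on the complex upper half plane, in terms of functions on the disc
-/

set_option autoImplicit false

open Complex Filter Topology
open UpperHalfPlane hiding I
open scoped Manifold

namespace Pool.Agent.Y852.RL

open Pool.Agent.Y813.RL

/-- the upper half plane as a set -/
def HH : Set ℂ := {τ | 0 < τ.im}

theorem isOpen_HH : IsOpen HH := isOpen_lt continuous_const Complex.continuous_im

theorem mem_HH {τ : ℂ} : τ ∈ HH ↔ 0 < τ.im := Iff.rfl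

theorem ee_ne (x : ℂ) : ee x ≠ 0 := Complex.exp_ne_zero _

theorem ee_add (x y : ℂ) : ee (x + y) = ee x * ee y := by
  unfold ee; rw [← Complex.exp_add]; congr 1; ring

theorem ee_zero : ee 0 = 1 := by simp [ee]

theorem ee_neg (x : ℂ) : ee (-x) = (ee x)⁻¹ := by
  unfold ee; rw [← Complex.exp_neg]; congr 1; ring

theorem ee_int (n : ℤ) : ee n = 1 := by
  unfold ee
  rw [show 2 * (Real.pi : ℂ) * I * n = n * (2 * Real.pi * I) by ring]
  exact Complex.exp_int_mul_two_pi_mul_I n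

theorem ee_add_int (x : ℂ) (n : ℤ) : ee (x + n) = ee x := by rw [ee_add, ee_int, mul_one]

theorem norm_ee (x : ℂ) : ‖ee x‖ = Real.exp (-(2 * Real.pi * x.im)) := by
  unfold ee; rw [Complex.norm_exp]; congr 1; simp

theorem ee_eq_qParam (x : ℂ) : ee x = Function.Periodic.qParam 1 x := by
  unfold ee Function.Periodic.qParam; congr 1; simp

theorem norm_ee_lt {x : ℂ} (hx : x ∈ HH) : ‖ee x‖ < 1 := by
  rw [norm_ee, Real.exp_lt_one_iff]
  have : 0 < 2 * Real.pi * x.im := by have := hx; unfold HH at this; simp at this; positivity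
  linarith

theorem hasDerivAt_ee_mul (M x : ℂ) :
    HasDerivAt (fun x => ee (M * x)) (2 * Real.pi * I * M * ee (M * x)) x := by
  have h1 : HasDerivAt (fun x : ℂ => 2 * (Real.pi : ℂ) * I * (M * x))
      (2 * (Real.pi : ℂ) * I * (M * 1)) x :=
    ((hasDerivAt_id x).const_mul M).const_mul (2 * (Real.pi : ℂ) * I)
  have h2 := h1.cexp
  refine h2.congr_deriv ?_
  unfold ee
  ring

theorem hasDerivAt_ee (x : ℂ) : HasDerivAt ee (2 * Real.pi * I * ee x) x := by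
  have := hasDerivAt_ee_mul 1 x
  simpa using this

/-- surjectivity on the punctured disc -/
theorem exists_ee {q : ℂ} (hq0 : q ≠ 0) (hq1 : ‖q‖ < 1) : ∃ τ ∈ HH, ee τ = q := by
  refine ⟨Function.Periodic.invQParam 1 q, ?_, ?_⟩
  · exact Function.Periodic.im_invQParam_pos_of_norm_lt_one one_pos hq1 hq0
  · rw [ee_eq_qParam]; exact_mod_cast Function.Periodic.qParam_right_inv one_ne_zero hq0

theorem add_one_mem {τ : ℂ} (h : τ ∈ HH) : τ + 1 ∈ HH := by
  rw [mem_HH] at *; simpa using h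

theorem neg_inv_mem {τ : ℂ} (h : τ ∈ HH) : -1 / τ ∈ HH := by
  rw [mem_HH] at *
  have h0 : τ ≠ 0 := by rintro rfl; simp at h
  rw [neg_div, one_div, Complex.neg_im, Complex.inv_im, neg_div, neg_neg]
  exact div_pos h (Complex.normSq_pos.2 h0)

theorem ne_zero_of_mem {τ : ℂ} (h : τ ∈ HH) : τ ≠ 0 := by
  rintro rfl; rw [mem_HH] at h; simp at h

/-! ### functions on the disc -/

theorem periodic_ofComplex (g : ℂ → ℂ) (hper : ∀ τ ∈ HH, g (τ + 1) = g τ) :
    Function.Periodic ((fun z : ℍ => g z) ∘ ofComplex) ((1 : ℝ) : ℂ) := by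
  intro w
  simp only [Function.comp]
  by_cases hw : 0 < w.im
  · have hw' : 0 < (w + ((1 : ℝ) : ℂ)).im := by simpa using hw
    rw [ofComplex_apply_of_im_pos hw, ofComplex_apply_of_im_pos hw']
    simpa using hper w hw
  · have hw' : (w + ((1 : ℝ) : ℂ)).im ≤ 0 := by simpa using hw
    rw [ofComplex_apply_eq_of_im_nonpos (not_lt.1 hw) hw']

theorem mdiff_of {g : ℂ → ℂ} (hg : DifferentiableOn ℂ g HH) : MDiff (fun z : ℍ => g z) := by
  rw [UpperHalfPlane.mdifferentiable_iff]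
  refine hg.congr fun z hz => ?_
  simp [Function.comp_apply, ofComplex_apply_of_im_pos hz]

theorem exists_disc {g : ℂ → ℂ} (hg : DifferentiableOn ℂ g HH)
    (hper : ∀ τ ∈ HH, g (τ + 1) = g τ) (hb : ∃ C, ∀ τ : ℂ, 1 / 2 ≤ τ.im → ‖g τ‖ ≤ C) :
    ∃ u : ℂ → ℂ, DifferentiableOn ℂ u (Metric.ball 0 1) ∧ ∀ τ ∈ HH, g τ = u (ee τ) := by
  have h1 := periodic_ofComplex g hper
  have h2 := mdiff_of hg
  obtain ⟨C, hC⟩ := hb
  have h3 : IsBoundedAtImInfty (fun z : ℍ => g z) := by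
    rw [isBoundedAtImInfty_iff]
    exact ⟨C, 1 / 2, fun z hz => hC z hz⟩
  refine ⟨cuspFunction 1 (fun z : ℍ => g z), differentiableOn_cuspFunction_ball one_pos h1 h2 h3,
    fun τ hτ => ?_⟩
  have := eq_cuspFunction (h := 1) (f := fun z : ℍ => g z) ⟨τ, hτ⟩ one_ne_zero h1
  rw [ee_eq_qParam]
  exact this.symm

/-! ### Eisenstein series -/

/-- `E_2` -/
noncomputable def P2 (τ : ℂ) : ℂ := EisensteinSeries.E2 (ofComplex τ)

/-- `E_4` -/
noncomputable def P4 (τ : ℂ) : ℂ := ModularForm.E (k := 4) (by norm_num) (ofComplex τ)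

theorem P2_diff : DifferentiableOn ℂ P2 HH :=
  UpperHalfPlane.mdifferentiable_iff.1 E2_mdifferentiable

theorem P4_diff : DifferentiableOn ℂ P4 HH :=
  UpperHalfPlane.mdifferentiable_iff.1 (ModularForm.E (k := 4) (by norm_num)).holo'

theorem P2_apply {τ : ℂ} (hτ : τ ∈ HH) : P2 τ = EisensteinSeries.E2 ⟨τ, hτ⟩ := by
  unfold P2; rw [ofComplex_apply_of_im_pos hτ]

theorem P4_apply {τ : ℂ} (hτ : τ ∈ HH) : P4 τ = ModularForm.E (k := 4) (by norm_num) ⟨τ, hτ⟩ := by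
  unfold P4; rw [ofComplex_apply_of_im_pos hτ]

theorem P2_S {τ : ℂ} (hτ : τ ∈ HH) : P2 (-1 / τ) = τ ^ 2 * P2 τ + 12 * τ / (2 * Real.pi * I) := by
  have h := congrFun (EisensteinSeries.E2_slash_action ModularGroup.S) ⟨τ, hτ⟩
  rw [SlashInvariantForm.slash_S_apply] at h
  simp only [Pi.sub_apply, Pi.smul_apply, EisensteinSeries.D2_S, riemannZeta_two] at h
  have e1 : -1 / τ = (-τ)⁻¹ := by rw [neg_div, one_div, inv_neg]
  have hm : (-τ)⁻¹ ∈ HH := by rw [← e1]; exact neg_inv_mem hτ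
  rw [e1, P2_apply hm, P2_apply hτ]
  have hτ0 := ne_zero_of_mem hτ
  have hπ : (Real.pi : ℂ) ≠ 0 := by exact_mod_cast Real.pi_ne_zero
  have h2 : EisensteinSeries.E2 ⟨(-τ)⁻¹, hm⟩ * τ ^ (-2 : ℤ) = EisensteinSeries.E2 ⟨τ, hτ⟩ -
      (1 / (2 * ((Real.pi : ℂ) ^ 2 / 6))) * (2 * Real.pi * I / τ) := h
  have h3 : EisensteinSeries.E2 ⟨(-τ)⁻¹, hm⟩ = τ ^ 2 * (EisensteinSeries.E2 ⟨τ, hτ⟩ -
      (1 / (2 * ((Real.pi : ℂ) ^ 2 / 6))) * (2 * Real.pi * I / τ)) := by
    rw [← h2, zpow_neg]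
    have : (τ ^ (2 : ℤ)) = τ ^ 2 := by norm_cast
    rw [this]
    field_simp
  rw [h3, mul_sub, sub_eq_add_neg]
  congr 1
  field_simp
  rw [I_sq]
  ring

theorem P4_S {τ : ℂ} (hτ : τ ∈ HH) : P4 (-1 / τ) = τ ^ 4 * P4 τ := by
  have h := (ModularForm.E (k := 4) (by norm_num)).slash_action_eq'
    (Matrix.SpecialLinearGroup.mapGL ℝ ModularGroup.S) ⟨_, rfl⟩
  have h' := congrFun h ⟨τ, hτ⟩
  have h2 := SlashInvariantForm.slash_S_apply (ModularForm.E (k := 4) (by norm_num)) 4 ⟨τ, hτ⟩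
  have h3 : (ModularForm.E (k := 4) (by norm_num)) ⟨τ, hτ⟩ =
      (ModularForm.E (k := 4) (by norm_num)) (.mk _ (UpperHalfPlane.im_inv_neg_coe_pos ⟨τ, hτ⟩)) *
        τ ^ (-4 : ℤ) := by
    rw [← h2]; exact h'.symm
  have e1 : -1 / τ = (-τ)⁻¹ := by rw [neg_div, one_div, inv_neg]
  have hm : (-τ)⁻¹ ∈ HH := by rw [← e1]; exact neg_inv_mem hτ
  have hτ0 := ne_zero_of_mem hτ
  rw [e1, P4_apply hm, P4_apply hτ, h3, zpow_neg]
  have : (τ ^ (4 : ℤ)) = τ ^ 4 := by norm_cast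
  rw [this]
  field_simp

theorem P2_hasSum {τ : ℂ} (hτ : τ ∈ HH) :
    HasSum (fun m : ℕ ↦ (if m = 0 then 1 else -24 * ArithmeticFunction.sigma 1 m : ℂ) •
      ee τ ^ m) (P2 τ) := by
  rw [P2_apply hτ]
  exact EisensteinSeries.hasSum_qExpansion_E2 (z := ⟨τ, hτ⟩)

theorem P2_T {τ : ℂ} (hτ : τ ∈ HH) : P2 (τ + 1) = P2 τ := by
  have h1 := P2_hasSum hτ
  have h2 := P2_hasSum (add_one_mem hτ)
  have h3 : ee (τ + 1) = ee τ := by
    have := ee_add_int τ 1
    simpa using this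
  rw [h3] at h2
  exact h2.unique h1

theorem P4_T {τ : ℂ} (hτ : τ ∈ HH) : P4 (τ + 1) = P4 τ := by
  have h := SlashInvariantFormClass.periodic_comp_ofComplex (ModularForm.E (k := 4) (by norm_num))
    (h := 1) one_mem_strictPeriods_SL τ
  have h2 : P4 (τ + ((1 : ℝ) : ℂ)) = P4 τ := h
  rwa [ofReal_one] at h2

theorem P2_disc : ∃ u : ℂ → ℂ, DifferentiableOn ℂ u (Metric.ball 0 1) ∧ u 0 = 1 ∧
    ∀ τ ∈ HH, P2 τ = u (ee τ) := by
  have hper : Function.Periodic (EisensteinSeries.E2 ∘ ofComplex) ((1 : ℝ) : ℂ) := by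
    have := periodic_ofComplex P2 fun τ hτ => P2_T hτ
    intro w
    have h1 := this w
    simpa [P2, Function.comp] using h1
  have hfin := differentiableOn_cuspFunction_ball one_pos hper E2_mdifferentiable
    EisensteinSeries.isBoundedAtImInfty_E2
  have han := analyticAt_cuspFunction_zero one_pos hper E2_mdifferentiable
    EisensteinSeries.isBoundedAtImInfty_E2
  have hps := hasFPowerSeriesOnBall_cuspFunction one_pos han (c := fun m : ℕ ↦
    (if m = 0 then 1 else -24 * ArithmeticFunction.sigma 1 m : ℂ)) (fun τ => by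
      have := EisensteinSeries.hasSum_qExpansion_E2 (z := τ)
      simpa only [Function.Periodic.qParam, ofReal_one, div_one] using this)
  refine ⟨cuspFunction 1 EisensteinSeries.E2, hfin, ?_, fun τ hτ => ?_⟩
  · have := hps.hasFPowerSeriesAt.coeff_zero (fun _ => 0)
    rw [← this]
    simp [FormalMultilinearSeries.ofScalars]
  · rw [P2_apply hτ, ee_eq_qParam]
    exact (eq_cuspFunction (h := 1) ⟨τ, hτ⟩ one_ne_zero hper).symm

theorem P4_disc : ∃ u : ℂ → ℂ, DifferentiableOn ℂ u (Metric.ball 0 1) ∧ u 0 = 1 ∧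
    ∀ τ ∈ HH, P4 τ = u (ee τ) := by
  refine ⟨cuspFunction 1 (ModularForm.E (k := 4) (by norm_num)), fun q hq =>
    (ModularFormClass.differentiableAt_cuspFunction _ one_pos one_mem_strictPeriods_SL
      (mem_ball_zero_iff.1 hq)).differentiableWithinAt, ?_, fun τ hτ => ?_⟩
  · have := EisensteinSeries.E_qExpansion_coeff_zero (k := 4) (by norm_num) (by decide)
    rw [qExpansion_coeff] at this
    simpa using this
  · rw [P4_apply hτ, ee_eq_qParam]
    exact (SlashInvariantFormClass.eq_cuspFunction _ (h := 1) ⟨τ, hτ⟩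
      one_mem_strictPeriods_SL one_ne_zero).symm

/-! ### Serre derivatives -/

/-- the Serre derivative of weight `k` -/
noncomputable def sd (k : ℂ) (f : ℂ → ℂ) (τ : ℂ) : ℂ :=
  (2 * Real.pi * I)⁻¹ * deriv f τ - k / 12 * P2 τ * f τ

theorem sd_congr {k : ℂ} {f g : ℂ → ℂ} (h : ∀ τ ∈ HH, f τ = g τ) {τ : ℂ} (hτ : τ ∈ HH) :
    sd k f τ = sd k g τ := by
  unfold sd
  have : f =ᶠ[𝓝 τ] g := by
    filter_upwards [isOpen_HH.mem_nhds hτ] with x hx using h x hx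
  rw [this.deriv_eq, h τ hτ]

theorem sd_diff {k : ℂ} {f : ℂ → ℂ} (hf : DifferentiableOn ℂ f HH) :
    DifferentiableOn ℂ (sd k f) HH := by
  unfold sd
  exact ((hf.deriv isOpen_HH).const_mul _).sub ((P2_diff.const_mul _).mul hf)

theorem sd_T {k c : ℂ} {f : ℂ → ℂ} (h : ∀ τ ∈ HH, f (τ + 1) = c * f τ)
    {τ : ℂ} (hτ : τ ∈ HH) : sd k f (τ + 1) = c * sd k f τ := by
  unfold sd
  have h1 : (fun x => f (x + 1)) =ᶠ[𝓝 τ] fun x => c * f x := by
    filter_upwards [isOpen_HH.mem_nhds hτ] with x hx using h x hx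
  have h2 := h1.deriv_eq
  rw [deriv_comp_add_const] at h2
  rw [h2, P2_T hτ, h τ hτ, deriv_const_mul_field]
  ring

/-- The Serre derivative and the inversion. -/
theorem sd_S {m : ℕ} {f G : ℂ → ℂ} (hG : DifferentiableOn ℂ G HH)
    (h : ∀ τ ∈ HH, f τ = τ ^ (m + 2) * G (-1 / τ)) {τ : ℂ} (hτ : τ ∈ HH) :
    sd (-(m + 2 : ℕ)) f τ = τ ^ m * sd (-(m + 2 : ℕ)) G (-1 / τ) := by
  have hτ0 := ne_zero_of_mem hτ
  have hm := neg_inv_mem hτ
  have h1 : HasDerivAt (fun x : ℂ => -1 / x) (1 / τ ^ 2) τ := by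
    have := (hasDerivAt_inv hτ0).const_mul (-1 : ℂ)
    refine (this.congr_deriv ?_).congr_of_eventuallyEq ?_
    · ring
    · exact Eventually.of_forall fun x => by ring
  have h2 : HasDerivAt G (deriv G (-1 / τ)) (-1 / τ) :=
    ((hG.differentiableAt (isOpen_HH.mem_nhds hm))).hasDerivAt
  have h3 : HasDerivAt (fun x : ℂ => x ^ (m + 2) * G (-1 / x))
      (((m + 2 : ℕ) : ℂ) * τ ^ (m + 1) * G (-1 / τ) +
        τ ^ (m + 2) * (deriv G (-1 / τ) * (1 / τ ^ 2))) τ :=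
    (hasDerivAt_pow (m + 2) τ).mul (h2.comp τ h1)
  have h4 : f =ᶠ[𝓝 τ] fun x : ℂ => x ^ (m + 2) * G (-1 / x) := by
    filter_upwards [isOpen_HH.mem_nhds hτ] with x hx using h x hx
  have hπ : (Real.pi : ℂ) ≠ 0 := by exact_mod_cast Real.pi_ne_zero
  unfold sd
  rw [h4.deriv_eq, h3.deriv, P2_S hτ, h τ hτ]
  push_cast
  field_simp
  ring

theorem sd_sum {ι : Type*} (k c : ℂ) (R : Finset ι) (a : ι → ℂ) (f : ι → ℂ → ℂ)
    (hf : ∀ i ∈ R, DifferentiableOn ℂ (f i) HH) {τ : ℂ} (hτ : τ ∈ HH) :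
    sd k (fun τ => c * ∑ i ∈ R, a i * f i τ) τ = c * ∑ i ∈ R, a i * sd k (f i) τ := by
  unfold sd
  have h1 : ∀ i ∈ R, HasDerivAt (fun τ => a i * f i τ) (a i * deriv (f i) τ) τ := fun i hi =>
    (((hf i hi).differentiableAt (isOpen_HH.mem_nhds hτ)).hasDerivAt).const_mul _
  have h2 : HasDerivAt (fun τ => c * ∑ i ∈ R, a i * f i τ)
      (c * ∑ i ∈ R, a i * deriv (f i) τ) τ := by
    have := (HasDerivAt.fun_sum h1).const_mul c
    exact this
  rw [h2.deriv]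
  simp only [mul_sub, Finset.sum_sub_distrib, Finset.mul_sum]
  congr 1
  · exact Finset.sum_congr rfl fun i _ => by ring
  · exact Finset.sum_congr rfl fun i _ => by ring

/-- the inversion relation of vector valued forms is preserved -/
theorem sd_rel {ι : Type*} {m : ℕ} (c : ℂ) (R : Finset ι) (a : ι → ℂ) (F : ℂ → ℂ)
    (f : ι → ℂ → ℂ) (hf : ∀ i ∈ R, DifferentiableOn ℂ (f i) HH)
    (h : ∀ τ ∈ HH, F τ = τ ^ (m + 2) * (c * ∑ i ∈ R, a i * f i (-1 / τ))) {τ : ℂ} (hτ : τ ∈ HH) :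
    sd (-(m + 2 : ℕ)) F τ = τ ^ m * (c * ∑ i ∈ R, a i * sd (-(m + 2 : ℕ)) (f i) (-1 / τ)) := by
  have hG : DifferentiableOn ℂ (fun τ => c * ∑ i ∈ R, a i * f i τ) HH := by
    apply DifferentiableOn.const_mul
    exact DifferentiableOn.fun_sum fun i hi => (hf i hi).const_mul _
  rw [sd_S hG h hτ, sd_sum _ _ _ _ _ hf (neg_inv_mem hτ)]

/-- the Serre derivative on the disc -/
theorem sd_disc {r : ℝ} (hr1 : r ≤ 1) {k : ℂ} (M : ℝ) {f u : ℂ → ℂ}
    (hu : DifferentiableOn ℂ u (Metric.ball 0 r))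
    (h : ∀ τ ∈ HH, ‖ee τ‖ < r → f τ = ee (M * τ) * u (ee τ)) :
    ∃ w : ℂ → ℂ, DifferentiableOn ℂ w (Metric.ball 0 r) ∧ w 0 = (M - k / 12) * u 0 ∧
      ∀ τ ∈ HH, ‖ee τ‖ < r → sd k f τ = ee (M * τ) * w (ee τ) := by
  obtain ⟨e, he, he0, heP⟩ := P2_disc
  have hsub : Metric.ball (0 : ℂ) r ⊆ Metric.ball 0 1 := Metric.ball_subset_ball hr1
  refine ⟨fun q => M * u q + q * deriv u q - k / 12 * e q * u q, ?_, ?_, ?_⟩
  · exact ((hu.const_mul _).add (differentiableOn_id.mul (hu.deriv Metric.isOpen_ball))).sub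
      (((he.mono hsub).const_mul _).mul hu)
  · simp only [he0, zero_mul, add_zero]; ring
  · intro τ hτ hlt
    have hq : ee τ ∈ Metric.ball (0 : ℂ) r := mem_ball_zero_iff.2 hlt
    have hopen : IsOpen (HH ∩ {x | ‖ee x‖ < r}) :=
      isOpen_HH.inter (isOpen_lt (by
        have : Continuous ee := by unfold ee; fun_prop
        exact this.norm) continuous_const)
    have h1 : f =ᶠ[𝓝 τ] fun x => ee (M * x) * u (ee x) := by
      filter_upwards [hopen.mem_nhds ⟨hτ, hlt⟩] with x hx using h x hx.1 hx.2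
    have h2 : HasDerivAt u (deriv u (ee τ)) (ee τ) :=
      (hu.differentiableAt (Metric.isOpen_ball.mem_nhds hq)).hasDerivAt
    have h3 : HasDerivAt (fun x => ee (M * x) * u (ee x))
        (2 * Real.pi * I * M * ee (M * τ) * u (ee τ) +
          ee (M * τ) * (deriv u (ee τ) * (2 * Real.pi * I * ee τ))) τ :=
      (hasDerivAt_ee_mul M τ).mul (h2.comp τ (hasDerivAt_ee τ))
    have hπ : (Real.pi : ℂ) ≠ 0 := by exact_mod_cast Real.pi_ne_zero
    unfold sd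
    rw [h1.deriv_eq, h3.deriv, heP τ hτ, h τ hτ hlt]
    field_simp

end Pool.Agent.Y852.RL
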